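import Mathlib

/-! Point sets of the projective plane in affine coordinates. -/

namespace Pool.Agent.H.MP_1f0ce0_co
open Finset Classical

variable {F : Type} [Field F] [Fintype F] {k n : ℕ}

/-- A set of `n` points (columns `C`, points at infinity `I`) meeting no line in `k` points. -/
def Av (F : Type) [Field F] [Fintype F] (k n : ℕ) : Prop :=
  ∃ (C : F → Finset F) (I : Finset (Option F)), ∑ x, (C x).card + I.card = n ∧
    (∀ x, (C x).card + (if none ∈ I then 1 else 0) ≠ k) ∧
    (∀ m d, (univ.filter fun x => m * x + d ∈ C x).card + (if some m ∈ I then 1 else 0) ≠ k) ∧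
    I.card ≠ k

lemma Av.compl (h : Av F k n) {k' n' : ℕ} (hk : k + k' = Fintype.card F + 1)
    (hn : n + n' = Fintype.card F ^ 2 + Fintype.card F + 1) : Av F k' n' := by
  obtain ⟨C, I, h1, h2, h3, h4⟩ := h
  have c : ∀ x, (C x).card + (C x)ᶜ.card = Fintype.card F := fun x => card_add_card_compl _
  have i := card_add_card_compl I
  have s : ∑ x, (C x).card + ∑ x, (C x)ᶜ.card = Fintype.card F ^ 2 := by
    simp [← sum_add_distrib, c, sq]
  rw [Fintype.card_option] at i
  refine ⟨fun x => (C x)ᶜ, Iᶜ, by beta_reduce; omega, fun x => ?_, fun m d => ?_, by omega⟩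
  · have := h2 x
    have := c x
    simp only [mem_compl]
    split_ifs at * <;> omega
  · have := h3 m d
    have := card_filter_add_card_filter_not (s := univ) fun x => m * x + d ∈ C x
    simp only [mem_compl, card_univ] at *
    split_ifs at * <;> omega

lemma easy (k2 : 2 ≤ k) (kq : k < Fintype.card F) (h : n < (k - 2) * Fintype.card F) : Av F k n := by
  set q := Fintype.card F
  have q0 : 0 < q := Fintype.card_pos
  have t1 : n / q < k - 2 := (Nat.div_lt_iff_lt_mul q0).mpr h
  obtain ⟨X, -, hX⟩ := exists_subset_card_eq (s := (univ : Finset F)) (n := n / q + 2)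
    (show _ ≤ q by omega)
  obtain ⟨a, ha, b, hb, ab⟩ := one_lt_card.mp (show 1 < X.card by rw [hX]; exact Nat.lt_add_left _ one_lt_two)
  obtain ⟨u, v, h1, h2, h3⟩ : ∃ u v, u + v = n % q ∧ u ≠ k ∧ v ≠ k := by
    by_cases c : n % q = k
    · exact ⟨k - 1, 1, by omega, by omega, by omega⟩
    · exact ⟨_, 0, rfl, c, by omega⟩
  have := Nat.mod_lt n q0
  obtain ⟨U, -, hU⟩ := exists_subset_card_eq (s := (univ : Finset F)) (n := u) (show _ ≤ q by omega)
  obtain ⟨V, -, hV⟩ := exists_subset_card_eq (s := (univ : Finset F)) (n := v) (show _ ≤ q by omega)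
  refine ⟨fun x => if x = a then U else if x = b then V else if x ∈ X then univ else ∅, ∅, ?_,
    fun x => ?_, fun m d => ?_, by simp; omega⟩
  · rw [← add_sum_erase _ _ (mem_univ a), ← add_sum_erase _ _ (show b ∈ univ.erase a by simp [ab.symm]),
      sum_congr rfl (g := fun x => if x ∈ X then q else 0) fun x hx => by
        simp only [mem_erase] at hx
        beta_reduce
        rw [if_neg hx.2.1, if_neg hx.1]
        split_ifs <;> simp [q], ← sum_filter, sum_const,
      show ((univ.erase a).erase b).filter (· ∈ X) = (X.erase a).erase b by ext; simp [and_assoc],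
      card_erase_of_mem (by simp [ab.symm, hb]), card_erase_of_mem ha, hX]
    have := Nat.div_add_mod' n q
    simp [ab.symm, hU, hV]
    omega
  · simp only [notMem_empty, if_false]
    split_ifs <;> simp [hU, hV, h2, h3] <;> omega
  · have : (univ.filter fun x => m * x + d ∈
        if x = a then U else if x = b then V else if x ∈ X then univ else ∅).card ≤ X.card :=
      card_le_card fun x hx => by
        by_contra c
        simp [show x ≠ a from fun e => c (e ▸ ha), show x ≠ b from fun e => c (e ▸ hb), c] at hx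
    simp only [notMem_empty, if_false]
    omega

def vec : (F × F) ⊕ Option F → Fin 3 → F
  | .inl p => ![p.1, p.2, 1]
  | .inr (some m) => ![1, m, 0]
  | .inr none => ![0, 1, 0]

omit [Fintype F] in
lemma vec0 (p : (F × F) ⊕ Option F) : vec p ≠ 0 := by
  rcases p with p | _ | m <;> simp [vec]

lemma bridge (h : Av F k n) : ∃ S : Set (Projectivization F (Fin 3 → F)), S.ncard = n ∧
    ∀ l : Fin 3 → F, l ≠ 0 → {p | p ∈ S ∧ ∑ i, p.rep i * l i = 0}.ncard ≠ k := by
  obtain ⟨C, I, h1, h2, h3, h4⟩ := h
  let e : (F × F) ⊕ Option F → Projectivization F (Fin 3 → F) := fun p => .mk F (vec p) (vec0 p)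
  have i : Function.Injective e := fun p p' h => by
    obtain ⟨a, ha⟩ := (Projectivization.mk_eq_mk_iff' F _ _ _ _).mp h
    have h0 := congrFun ha 0
    have h1 := congrFun ha 1
    have h2 := congrFun ha 2
    rcases p with p | _ | m <;> rcases p' with p' | _ | m' <;> simp_all [vec, Prod.ext_iff]
  let T := ((univ.sigma C).image fun p => (p.1, p.2)).disjSum I
  have ip : Function.Injective fun p : (_ : F) × F => (p.1, p.2) := fun p p' h => by
    obtain ⟨a, b⟩ := p
    obtain ⟨c, d⟩ := p'
    simp_all
  refine ⟨e '' T, by rw [Set.ncard_image_of_injective _ i, Set.ncard_coe_finset, card_disjSum,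
    card_image_of_injective _ ip, card_sigma, h1], fun l l0 => ?_⟩
  have r : ∀ p, ∑ i, (e p).rep i * l i = 0 ↔ ∑ i, vec p i * l i = 0 := fun p => by
    obtain ⟨a, ha⟩ := Projectivization.exists_smul_eq_mk_rep F (vec p) (vec0 p)
    simp only [e, ← ha, Pi.smul_apply, Units.smul_def, smul_eq_mul, mul_assoc, ← mul_sum]
    simp
  rw [show {p | p ∈ e '' T ∧ ∑ i, p.rep i * l i = 0} =
      e '' (T.filter fun p => ∑ i, vec p i * l i = 0) by
      ext p
      simp only [Set.mem_setOf_eq, Set.mem_image, coe_filter, mem_coe, ← r]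
      grind, Set.ncard_image_of_injective _ i, Set.ncard_coe_finset]
  have key : ∀ (X : Finset F) (f : F → F × F) (J : Finset (Option F)), Function.Injective f →
      (∀ x y, y ∈ C x ∧ x * l 0 + y * l 1 + l 2 = 0 ↔ ∃ z ∈ X, f z = (x, y)) →
      (∀ m, some m ∈ J ↔ some m ∈ I ∧ l 0 + m * l 1 = 0) → (none ∈ J ↔ none ∈ I ∧ l 1 = 0) →
      (T.filter fun p => ∑ i, vec p i * l i = 0).card = X.card + J.card := fun X f J j a b c => by
    rw [← card_image_of_injective X j, ← card_disjSum]
    congr 1
    ext p
    rcases p with ⟨x, y⟩ | _ | m <;> simp [T, vec, Fin.sum_univ_three, ← a, b, c]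
  have one : ∀ o : Option F, (I.filter (· = o)).card = if o ∈ I then 1 else 0 := fun o => by
    rw [filter_eq']
    split_ifs <;> simp
  by_cases c1 : l 1 = 0
  · by_cases c0 : l 0 = 0
    · have c2 : l 2 ≠ 0 := fun c2 => l0 (funext fun i => by fin_cases i <;> simp [c0, c1, c2])
      rw [key ∅ (fun x => (x, x)) I (fun _ _ h => (Prod.ext_iff.mp h).1) (by simp [c0, c1, c2])
        (by simp [c0, c1]) (by simp [c1])]
      simpa using h4
    · rw [key (C (-l 2 / l 0)) (fun y => (-l 2 / l 0, y)) (I.filter (· = none))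
        (fun _ _ h => (Prod.ext_iff.mp h).2) (fun x y => ?_) (by simp [c0, c1]) (by simp [c1]), one]
      · exact h2 _
      · have : x * l 0 + l 2 = 0 ↔ -l 2 / l 0 = x := by
          rw [div_eq_iff c0]
          constructor <;> intro h <;> linear_combination -h
        simp only [c1, mul_zero, add_zero, this, Prod.mk.injEq]
        grind
  · rw [key (univ.filter fun x => -l 0 / l 1 * x + -l 2 / l 1 ∈ C x)
      (fun x => (x, -l 0 / l 1 * x + -l 2 / l 1)) (I.filter (· = some (-l 0 / l 1)))
      (fun _ _ h => (Prod.ext_iff.mp h).1) (fun x y => ?_) (fun m => ?_) (by simp [c1]), one]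
    · exact h3 _ _
    · have : x * l 0 + y * l 1 + l 2 = 0 ↔ -l 0 / l 1 * x + -l 2 / l 1 = y := by
        rw [div_mul_eq_mul_div, ← add_div, div_eq_iff c1]
        constructor <;> intro h <;> linear_combination -h
      simp only [this, Prod.mk.injEq, mem_filter, mem_univ, true_and]
      grind
    · have : l 0 + m * l 1 = 0 ↔ m = -l 0 / l 1 := by
        rw [eq_div_iff c1]
        constructor <;> intro h <;> linear_combination h
      simp [this]

end Pool.Agent.H.MP_1f0ce0_co
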