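import Pool.Agent.H.MP_1f0ce0_co.A

/-! Sums modulo two of lines: almost all lines have the same parity. -/

namespace Pool.Agent.H.MP_1f0ce0_co
open Finset Classical

variable {F : Type} [Field F] [Fintype F] {k n : ℕ}

noncomputable def io (p : Prop) : ℤ := if p then 1 else 0

omit [Field F] in
lemma cnt (P Q R : F → Prop) [DecidablePred fun x => (P x ↔ Q x) ↔ R x] :
    ((univ.filter fun x => (P x ↔ Q x) ↔ R x).card : ℤ) = ∑ x, io (P x) + ∑ x, io (Q x) -
      2 * ∑ x, io (P x) * io (Q x) +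
      ∑ x, if R x then 1 - 2 * (io (P x) + io (Q x) - 2 * (io (P x) * io (Q x))) else 0 := by
  rw [card_filter, mul_sum, ← sum_add_distrib, ← sum_sub_distrib, ← sum_add_distrib]
  push_cast
  refine sum_congr rfl fun x _ => ?_
  by_cases P x <;> by_cases Q x <;> by_cases R x <;> simp [io, *]

omit [Field F] in
lemma sio (A : Finset F) : ∑ x, io (x ∈ A) = A.card := by
  rw [show (A.card : ℤ) = ∑ x, if x ∈ A then 1 else 0 by simp]
  exact sum_congr rfl fun x _ => by by_cases x ∈ A <;> simp [io, *]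

lemma io01 (p : Prop) : io p = 0 ∨ io p = 1 := by by_cases p <;> simp [io, *]

lemma par (a b N τ : ℕ) (e : (a + b) % 2 = 0) (h1 : N ≤ a) (h2 : N ≤ b)
    (h3 : a + b ≤ Fintype.card F) (h4 : a + 3 ≤ k) (h5 : b + 3 ≤ k)
    (h6 : k + a + 3 ≤ Fintype.card F) (h7 : k + b + 3 ≤ Fintype.card F) (ht : τ ≤ 1)
    (hd : Fintype.card F + 2 * N + (1 - k % 2) ≠ k + a + b)
    (hn : n + 2 * a * b + 2 * (a + b) = (a + b) * Fintype.card F + Fintype.card F + 4 * N +
      (if k % 2 = 0 then 1 else Fintype.card F - 2) + τ) : Av F k n := by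
  obtain ⟨D, -, hD⟩ := exists_subset_card_eq (s := (univ : Finset F)) (n := a + b - N)
    (show _ ≤ Fintype.card F by omega)
  obtain ⟨A, AD, hA⟩ := exists_subset_card_eq (s := D) (n := a) (by omega)
  obtain ⟨M, MA, hM⟩ := exists_subset_card_eq (s := A) (n := N) (by omega)
  obtain ⟨B, hB, hAB⟩ : ∃ B : Finset F, B.card = b ∧ (A ∩ B).card = N := by
    refine ⟨D \ A ∪ M, ?_, ?_⟩
    · rw [card_union_of_disjoint (sdiff_disjoint.mono_right MA), card_sdiff_of_subset AD]
      omega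
    · rw [← hM]
      congr 1
      ext x
      have := @MA x
      simp
      tauto
  have sN : ∑ x, io (x ∈ A) * io (x ∈ B) = N := by
    rw [← hAB, ← sio]
    exact sum_congr rfl fun x _ => by by_cases x ∈ A <;> by_cases x ∈ B <;> simp [io, *]
  let J : Finset F := if k % 2 = 0 then {1} else (univ.erase 1).erase 0
  have hJ : J.card = if k % 2 = 0 then 1 else Fintype.card F - 2 := by
    simp only [J]
    split_ifs
    · simp
    · rw [card_erase_of_mem (by simp), card_erase_of_mem (by simp), card_univ]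
      omega
  let I : Finset (Option F) := if τ = 0 then J.map ⟨some, Option.some_injective F⟩ else insertNone J
  have hI : I.card = J.card + τ := by
    simp only [I]
    split_ifs with c
    · simp [c]
    · rw [card_insertNone]
      omega
  have mI : ∀ m, some m ∈ I ↔ m ∈ J := fun m => by
    simp only [I]
    split_ifs <;> simp
  have col : ∀ x, ((univ.filter fun y => (x ∈ A ↔ y ∈ B) ↔ y = x).card : ℤ) =
      io (x ∈ A) * Fintype.card F + b - 2 * (io (x ∈ A) * b) +
        (1 - 2 * (io (x ∈ A) + io (x ∈ B) - 2 * (io (x ∈ A) * io (x ∈ B)))) := fun x => by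
    rw [cnt (fun _ => x ∈ A) (· ∈ B) (· = x), ← mul_sum, sio, hB]
    simp [mul_comm]
  refine ⟨fun x => univ.filter fun y => (x ∈ A ↔ y ∈ B) ↔ y = x, I, ?_, fun x => ?_, fun m d => ?_, ?_⟩
  · rw [hI, hJ]
    generalize (if k % 2 = 0 then 1 else Fintype.card F - 2) = e at *
    zify at hn ⊢
    simp only [col, sum_add_distrib, sum_sub_distrib, ← mul_sum, ← sum_mul, sio, sN, hA, hB]
    simp only [sum_const, card_univ, nsmul_eq_mul]
    linarith
  · have := col x
    rcases io01 (x ∈ A) with s | s <;> rcases io01 (x ∈ B) with t | t <;> rw [s, t] at this <;>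
      beta_reduce <;> split_ifs <;> omega
  · simp only [mem_filter, mem_univ, true_and, mI]
    have c := cnt (· ∈ A) (fun x => m * x + d ∈ B) fun x => m * x + d = x
    rw [sio, hA] at c
    have one : m ≠ 1 → ∀ g : F → ℤ, (∑ x, if m * x + d = x then g x else 0) = g (d / (1 - m)) :=
      fun m1 g => by
        have : ∀ x, m * x + d = x ↔ x = d / (1 - m) := fun x => by
          rw [eq_div_iff (sub_ne_zero.mpr m1.symm)]
          constructor <;> intro h <;> linear_combination -h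
        simp [this]
    by_cases m0 : m = 0
    · rw [one (by simp [m0])] at c
      simp only [m0, zero_mul, zero_add, ← sum_mul, sio, hA, sum_const, card_univ, nsmul_eq_mul,
        sub_zero, div_one] at c ⊢
      have : (0 : F) ∉ J := by
        simp only [J]
        split_ifs <;> simp
      rw [if_neg this]
      rcases io01 (d ∈ A) with s | s <;> rcases io01 (d ∈ B) with t | t <;> rw [s, t] at c <;> omega
    rw [show ∑ x, io (m * x + d ∈ B) = b by
      rw [← hB, ← sio]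
      exact Fintype.sum_equiv ((Equiv.mulLeft₀ m m0).trans (Equiv.addRight d)) _ _ fun _ => rfl] at c
    by_cases m1 : m = 1
    · have : m ∈ J ↔ k % 2 = 0 := by
        simp only [J]
        split_ifs with h <;> simp [m1, h]
      by_cases d0 : d = 0
      · simp only [m1, d0, one_mul, add_zero, if_true, sum_add_distrib, sum_sub_distrib, ← mul_sum,
          sio, sN, hA, hB, sum_const, card_univ, nsmul_eq_mul] at c this ⊢
        simp only [this]
        split_ifs <;> omega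
      · rw [sum_eq_zero fun x _ => if_neg (by simp [m1, d0])] at c
        simp only [this]
        split_ifs <;> omega
    · have : m ∈ J ↔ k % 2 ≠ 0 := by
        simp only [J]
        split_ifs with h <;> simp [m1, m0, h]
      rw [one m1] at c
      simp only [this]
      split_ifs <;> omega
  · rw [hI, hJ]
    split_ifs <;> omega

lemma opt {M h j : ℕ} (p : j % 2 = M % 2) (l : (j + 2) ^ 2 ≤ M) :
    ∃ N N', N ≠ N' ∧ j ^ 2 + 2 * N = M ∧ (j + 2) ^ 2 + 2 * N' = M := by
  have : j ^ 2 % 2 = j % 2 := by rcases Nat.mod_two_eq_zero_or_one j with h | h <;> simp [Nat.pow_mod, h]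
  have e : (j + 2) ^ 2 = j ^ 2 + 4 * j + 4 := by ring
  exact ⟨(M - j ^ 2) / 2, (M - (j + 2) ^ 2) / 2, by omega, by omega, by omega⟩

lemma arith {q k m r e : ℕ} (e1 : 1 ≤ e) (e2 : e ≤ q) (hr : q + 8 ≤ r ^ 2) (hq : 6 * r + 10000 ≤ q)
    (hk : 20 * r ≤ k) (m1 : 2 * m ≤ q ^ 2 + q + 1) (m2 : (k - 2) * q ≤ m) (m3 : m ≤ (k + 2) * q + 1) :
    ∃ h j N N' τ, N ≠ N' ∧ τ ≤ 1 ∧ j + N ≤ h ∧ j + 2 + N' ≤ h ∧ 2 * h ≤ q ∧ h + j + 12 ≤ k ∧
      j ^ 2 + 2 * N = (j + 2) ^ 2 + 2 * N' ∧
      m + 2 * h ^ 2 + 4 * h = 2 * h * q + q + e + 2 * (j ^ 2 + 2 * N) + τ := by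
  have r0 : 100 ≤ r := by nlinarith
  obtain ⟨k, rfl⟩ : ∃ k', k = k' + 2 := ⟨k - 2, by omega⟩
  rw [Nat.add_sub_cancel] at m2
  obtain ⟨h, ⟨a1, a2⟩, a3⟩ : ∃ h, (2 * h + 62 ≤ q ∧ 2 * h * q + q + e + 19 ≤ m + 2 * h ^ 2 + 4 * h) ∧
      ¬(2 * (h + 1) + 62 ≤ q ∧ 2 * (h + 1) * q + q + e + 19 ≤ m + 2 * (h + 1) ^ 2 + 4 * (h + 1)) := by
    by_contra! c
    have : ∀ h, 2 * h + 62 ≤ q ∧ 2 * h * q + q + e + 19 ≤ m + 2 * h ^ 2 + 4 * h := fun h => by
      induction h with
      | zero => exact ⟨by omega, by nlinarith⟩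
      | succ h ih => exact c h ih
    have := (this q).1
    omega
  obtain ⟨w, rfl⟩ : ∃ w, q = 2 * h + 62 + w := ⟨q - (2 * h + 62), by omega⟩
  obtain ⟨M, hM⟩ : ∃ M, m + 2 * h ^ 2 + 4 * h = 2 * h * (2 * h + 62 + w) + (2 * h + 62 + w) + e + M :=
    ⟨_, (Nat.add_sub_cancel' (by omega)).symm⟩
  have b1 : w ≤ 1 ∨ M ≤ 2 * w + 136 := by
    by_contra! c
    exact a3 ⟨by omega, by nlinarith⟩
  have b2 : k ≤ 2 * h + 5 := by
    rcases b1 with b | b
    · nlinarith
    · nlinarith
  have b3 : h * (2 * h + 2 * w + 120) ≤ (k + 3) * (2 * h + 62 + w) := by nlinarith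
  by_cases c : M / 2 + 6 ≤ 2 * h
  · obtain ⟨N, N', n1, n2, n3⟩ := opt (h := h) (M := M / 2) (j := M / 2 % 2) (by omega)
      ((Nat.pow_le_pow_left (show _ ≤ 3 by omega) 2).trans (by omega))
    refine ⟨h, _, N, N', M % 2, n1, by omega, by omega, by omega, by omega, ?_, n2.trans n3.symm, by omega⟩
    by_contra! c
    have : k ≤ h + 10 := by omega
    nlinarith
  have b4 : M ≤ 2 * w + 136 := by
    rcases b1 with b | b
    · exfalso
      obtain rfl | rfl : w = 0 ∨ w = 1 := by omega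
      all_goals
        have : 4 * h - 12 ≤ M := by omega
        have : 4000 ≤ h := by omega
        have : 4 * h ≤ M + 12 := by omega
        nlinarith
    · exact b
  obtain ⟨j, p, l, u⟩ : ∃ j, j % 2 = M / 2 % 2 ∧ (j + 2) ^ 2 ≤ M / 2 ∧ M / 2 < (j + 4) ^ 2 := by
    have s1 := Nat.sqrt_le' (M / 2)
    have s2 := Nat.lt_succ_sqrt' (M / 2)
    have s3 : 3 ≤ Nat.sqrt (M / 2) := Nat.le_sqrt'.mpr (by omega)
    generalize Nat.sqrt (M / 2) = s at *
    obtain ⟨s, rfl⟩ : ∃ t, s = t + 3 := ⟨s - 3, by omega⟩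
    simp only [Nat.succ_eq_add_one] at s2
    by_cases c : s % 2 = M / 2 % 2
    · exact ⟨s, c, by nlinarith, s2⟩
    · exact ⟨s + 1, by omega, s1, by nlinarith⟩
  obtain ⟨N, N', n1, n2, n3⟩ := opt (h := h) p l
  have jr : j + 2 ≤ r := by
    by_contra! c
    have := Nat.pow_le_pow_left c.le 2
    omega
  have : N < 4 * j + 8 := by nlinarith
  have : N' < N := by nlinarith
  refine ⟨h, j, N, N', M % 2, n1, by omega, by omega, by omega, by omega, ?_, n2.trans n3.symm, by omega⟩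
  by_contra! c'
  have c1 : k + 3 ≤ h + r + 10 := by omega
  obtain ⟨x, hx⟩ : ∃ x, h = 18 * r + x := ⟨h - 18 * r, by omega⟩
  obtain ⟨y, hy⟩ : ∃ y, w + 38 = 3 * r + y := ⟨w + 38 - 3 * r, by omega⟩
  have c2 := b3.trans (Nat.mul_le_mul_right _ c1)
  obtain rfl : w = 3 * r + y - 38 := by omega
  zify [show 38 ≤ 3 * r + y by omega] at c2
  subst hx
  push_cast at c2
  have : (100 : ℤ) ≤ r := by exact_mod_cast r0
  nlinarith [mul_nonneg (Nat.cast_nonneg (α := ℤ) x) (Nat.cast_nonneg (α := ℤ) y),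
    mul_nonneg (Nat.cast_nonneg (α := ℤ) x) (sub_nonneg.mpr this),
    mul_nonneg (Nat.cast_nonneg (α := ℤ) y) (sub_nonneg.mpr this)]

end Pool.Agent.H.MP_1f0ce0_co
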