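import Pool.Agent.H.MP_1f0ce0_co.B

/-! Complete spectrum in the middle range. -/

namespace Pool.Agent.H.MP_1f0ce0_co
open Finset Classical

variable {F : Type} [Field F] [Fintype F] {k n : ℕ}

lemma red (k2 : 2 ≤ k) (kq : k < Fintype.card F) (hn : n ≤ Fintype.card F ^ 2 + Fintype.card F + 1)
    (h : (k - 2) * Fintype.card F ≤ n → n ≤ (k + 2) * Fintype.card F + 1 → Av F k n) : Av F k n := by
  by_cases c : n < (k - 2) * Fintype.card F
  · exact easy k2 kq c
  by_cases c' : n ≤ (k + 2) * Fintype.card F + 1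
  · exact h (not_lt.mp c) c'
  have : k + 1 < Fintype.card F := by
    by_contra! a
    nlinarith
  refine (easy (k := Fintype.card F + 1 - k) (n := Fintype.card F ^ 2 + Fintype.card F + 1 - n)
    (by omega) (by omega) ?_).compl (by omega) (by omega)
  obtain ⟨t, ht⟩ : ∃ t, Fintype.card F = k + 1 + t := ⟨Fintype.card F - (k + 1), by omega⟩
  rw [show Fintype.card F + 1 - k - 2 = t by omega]
  have : Fintype.card F ^ 2 = (k + 1) * Fintype.card F + t * Fintype.card F := by
    rw [← add_mul, ← ht, sq]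
  have e : (k + 2) * Fintype.card F = (k + 1) * Fintype.card F + Fintype.card F := by ring
  omega

lemma half {r : ℕ} (hr : Fintype.card F + 8 ≤ r ^ 2) (hq : 6 * r + 10000 ≤ Fintype.card F)
    (hk : 20 * r ≤ k) (hk' : k + 20 * r ≤ Fintype.card F + 1)
    (hn : 2 * n ≤ Fintype.card F ^ 2 + Fintype.card F + 1) : Av F k n := by
  have r0 : 100 ≤ r := by nlinarith
  refine red (by omega) (by omega) (by omega) fun m2 m3 => ?_
  have k5 : 2 * k ≤ Fintype.card F + 5 := by
    by_contra! c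
    obtain ⟨k, rfl⟩ : ∃ k', k = k' + 2 := ⟨k - 2, by omega⟩
    rw [Nat.add_sub_cancel] at m2
    nlinarith
  obtain ⟨h, j, N, N', τ, a1, a2, a3, a4, a5, a6, a7, a8⟩ :=
    arith (e := if k % 2 = 0 then 1 else Fintype.card F - 2) (by split_ifs <;> omega)
      (by split_ifs <;> omega) hr hq hk hn m2 m3
  have key : ∀ j' N, j' + N ≤ h → j' ≤ j + 2 → j ^ 2 + 2 * N' + (j + 2) ^ 2 = j' ^ 2 + 2 * N + j ^ 2 →
      Fintype.card F + 2 * N + (1 - k % 2) ≠ k + 2 * h → Av F k n := fun j' M b1 b2 b3 b4 => by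
    obtain ⟨a, rfl⟩ : ∃ a, h = j' + a := ⟨h - j', by omega⟩
    refine par a (a + 2 * j') M τ (by omega) (by omega) (by omega) (by omega) (by omega) (by omega)
      (by omega) (by omega) a2 (by omega) ?_
    generalize (if k % 2 = 0 then 1 else Fintype.card F - 2) = e at *
    nlinarith
  by_cases c : Fintype.card F + 2 * N + (1 - k % 2) = k + 2 * h
  · exact key (j + 2) N' a4 le_rfl (by omega) (by omega)
  · exact key j N a3 (by omega) (by omega) c

lemma mid {r : ℕ} (hr : Fintype.card F + 8 ≤ r ^ 2) (hq : 6 * r + 10000 ≤ Fintype.card F)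
    (hk : 20 * r ≤ k) (hk' : k + 20 * r ≤ Fintype.card F + 1)
    (hn : n ≤ Fintype.card F ^ 2 + Fintype.card F + 1) : Av F k n := by
  by_cases c : 2 * n ≤ Fintype.card F ^ 2 + Fintype.card F + 1
  · exact half hr hq hk hk' c
  · exact (half (k := Fintype.card F + 1 - k) (n := Fintype.card F ^ 2 + Fintype.card F + 1 - n)
      hr hq (by omega) (by omega) (by omega)).compl (by omega) (by omega)

lemma root {q : ℕ} (h : 20000 ≤ q) :
    q + 8 ≤ (q.sqrt + 3) ^ 2 ∧ 6 * (q.sqrt + 3) + 10000 ≤ q ∧ 100 ≤ q.sqrt := by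
  have s1 := Nat.sqrt_le' q
  have s2 := Nat.lt_succ_sqrt' q
  have s3 : 100 ≤ q.sqrt := Nat.le_sqrt'.mpr (by omega)
  simp only [Nat.succ_eq_add_one] at s2
  exact ⟨by nlinarith, by nlinarith, s3⟩

lemma bridge' (h : Av F k n) : ∃ S : Set (Projectivization F (Fin 3 → F)), S.ncard = n ∧
    ∀ W : Submodule F (Fin 3 → F), Module.finrank F W = 2 →
      (S ∩ {p : Projectivization F (Fin 3 → F) | p.submodule ≤ W}).ncard ≠ k := by
  obtain ⟨S, h1, h2⟩ := bridge h
  refine ⟨S, h1, fun W hW => ?_⟩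
  have t : W < ⊤ := lt_top_iff_ne_top.mpr fun e => by
    rw [e] at hW
    simp at hW
  obtain ⟨f, f0, hf⟩ := Submodule.exists_le_ker_of_lt_top W t
  have e : W = LinearMap.ker f := Submodule.eq_of_le_of_finrank_le hf (by
    have := Submodule.finrank_lt (s := LinearMap.ker f) (by simpa using f0)
    simp at this
    omega)
  have v : ∀ x : Fin 3 → F, f x = ∑ i, x i * f (Pi.single i 1) := fun x => by
    conv_lhs => rw [pi_eq_sum_univ' x]
    simp
  have := h2 (fun i => f (Pi.single i 1)) fun c => f0 (LinearMap.ext fun x => by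
    rw [v]
    simp [show ∀ i, f (Pi.single i 1) = 0 from congrFun c])
  rwa [show S ∩ {p | p.submodule ≤ W} = {p | p ∈ S ∧ ∑ i, p.rep i * f (Pi.single i 1) = 0} by
    ext p
    simp [e, ← v, Projectivization.submodule_eq]]

end Pool.Agent.H.MP_1f0ce0_co
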