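import Pool.Agent.H.MP_1f0ce0_co.C

/-! From a gadget with a gap in its intersection numbers to all critical sizes. -/

namespace Pool.Agent.H.MP_1f0ce0_co
open Finset Classical

variable {F : Type} [Field F] [Fintype F] {k n : ℕ}

/-- An affine set of about `1743 q` points, with many empty columns, which almost no line meets
in `1740, …, 1746` points. -/
def Gad (F : Type) [Field F] [Fintype F] : Prop :=
  ∃ (G : F → Finset F) (X : Finset F) (L : Finset (F × F)), (∀ x ∈ X, G x = ∅) ∧
    Fintype.card F ≤ 2 ^ 168 * (X.card + 1) ∧ L.card ≤ 10 ^ 16 ∧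
    (∀ x, (G x).card ≤ 7056 ∨ Fintype.card F ≤ 2 * (G x).card) ∧
    ∑ x, (G x).card ≤ 1743 * Fintype.card F ∧ 1743 * Fintype.card F ≤ ∑ x, (G x).card + 10 ^ 8 ∧
    ∀ m d, (m, d) ∉ L → (∑ x, if m * x + d ∈ G x then 1 else 0) < 1740 ∨
      1746 < ∑ x, if m * x + d ∈ G x then 1 else 0

lemma Gad.av (h : Gad F) (k0 : 7057 ≤ k) (hq : 2 ^ 168 * (k + 10 ^ 33) ≤ Fintype.card F)
    (m2 : (k - 2) * Fintype.card F ≤ n) (m3 : n ≤ (k + 2) * Fintype.card F + 1) : Av F k n := by
  obtain ⟨G, X, L, g1, g2, g3, g4, g5, g6, g7⟩ := h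
  have x1 : k + 10 ^ 33 ≤ X.card + 1 := Nat.le_of_mul_le_mul_left (hq.trans g2) (by positivity)
  obtain ⟨c, cX, hc⟩ := exists_mem_notMem_of_card_lt_card (t := X)
    (s := (L ×ˢ L).image fun p => (p.2.2 - p.1.2) / (p.1.1 - p.2.1)) (by
      refine card_image_le.trans_lt ?_
      rw [card_product]
      have := Nat.mul_le_mul g3 g3
      omega)
  have inj : ∀ p ∈ L, ∀ p' ∈ L, p.1 * c + p.2 = p'.1 * c + p'.2 → p = p' := fun p hp p' hp' e => by
    by_cases m : p.1 = p'.1
    · exact Prod.ext m (by simpa [m] using e)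
    · refine absurd (mem_image.mpr ⟨(p, p'), mem_product.mpr ⟨hp, hp'⟩, ?_⟩) hc
      rw [div_eq_iff (sub_ne_zero.mpr m)]
      linear_combination -e
  obtain ⟨Z, ZX, hZ⟩ := exists_subset_card_eq (s := X.erase c) (n := 5)
    (by rw [card_erase_of_mem cX]; omega)
  obtain ⟨s, rfl⟩ : ∃ s, k = s + 1746 := ⟨k - 1746, by omega⟩
  obtain ⟨Y, YX, hY⟩ := exists_subset_card_eq (s := X.erase c \ Z) (n := s)
    (by rw [card_sdiff_of_subset ZX, card_erase_of_mem cX]; omega)
  rw [show s + 1746 - 2 = s + 1744 by omega, add_mul] at m2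
  rw [show s + 1746 + 2 = s + 1748 by omega, add_mul] at m3
  obtain ⟨t, ht⟩ : ∃ t, n = ∑ x, (G x).card + s * Fintype.card F + t :=
    ⟨_, (Nat.add_sub_cancel' (by omega)).symm⟩
  let P : F → Finset F := fun x => L.image fun p => p.1 * x + p.2
  have hP : ∀ x, Fintype.card F ≤ (P x)ᶜ.card + 10 ^ 16 := fun x => by
    have := card_add_card_compl (P x)
    have : (P x).card ≤ L.card := card_image_le
    omega
  choose T TP hT using fun x => exists_subset_card_eq (s := (P x)ᶜ) (n := t / 6)
    (by have := hP x; omega)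
  let R := (L.filter fun p => (∑ x, if p.1 * x + p.2 ∈ G x then 1 else 0) = 1746).image
    fun p => p.1 * c + p.2
  have hR : R.card ≤ 10 ^ 16 := card_image_le.trans ((card_filter_le _ _).trans g3)
  obtain ⟨U, RU, UP, hU⟩ := exists_subsuperset_card_eq (s := R) (t := R ∪ (P c)ᶜ)
    (n := t - 5 * (t / 6)) subset_union_left (by omega) (by
      have := hP c
      have := card_le_card (subset_union_right (s₁ := R) (s₂ := (P c)ᶜ))
      omega)
  let C : F → Finset F := fun x =>
    if x = c then U else if x ∈ Z then T x else if x ∈ Y then univ else G x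
  have key : ∀ f : F → Finset F → ℕ, (∀ x, f x ∅ = 0) → ∑ x, f x (C x) =
      f c U + ∑ x ∈ Z, f x (T x) + ∑ x ∈ Y, f x univ + ∑ x, f x (G x) := fun f f0 => by
    rw [sum_congr rfl (g := fun x => (if x = c then f x U else 0) + (if x ∈ Z then f x (T x) else 0) +
      (if x ∈ Y then f x univ else 0) + f x (G x)) fun x _ => ?_]
    · simp [sum_add_distrib]
    · have a := @ZX x
      have b := @YX x
      have e := g1 x
      simp only [mem_erase, mem_sdiff] at a b
      simp only [C]
      by_cases h1 : x = c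
      · simp [h1, show c ∉ Z by grind, show c ∉ Y by grind, g1 c cX, f0]
      by_cases h2 : x ∈ Z
      · simp [h1, h2, show x ∉ Y by grind, e (a h2).2, f0]
      by_cases h3 : x ∈ Y
      · simp [h1, h2, h3, e (b h3).1.2, f0]
      · simp [h1, h2, h3]
  refine ⟨C, ∅, ?_, fun x => ?_, fun m d => ?_, by simp⟩
  · rw [key (fun _ S => S.card) (by simp)]
    simp only [hT, hU, sum_const, hZ, hY, card_univ, smul_eq_mul, card_empty]
    omega
  · have := g4 x
    have := hT x
    simp only [C, notMem_empty, if_false]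
    split_ifs <;> (try rw [card_univ]) <;> omega
  · rw [card_filter, key (fun x S => if m * x + d ∈ S then 1 else 0) (by simp)]
    simp only [mem_univ, if_true, sum_const, hY, smul_eq_mul, mul_one, notMem_empty, if_false]
    by_cases b : (m, d) ∈ L
    · have m1 : ∀ x, m * x + d ∈ P x := fun x => mem_image.mpr ⟨_, b, rfl⟩
      rw [sum_eq_zero fun x _ => if_neg fun h => mem_compl.mp (TP x h) (m1 x)]
      by_cases e : (∑ x, if m * x + d ∈ G x then 1 else 0) = 1746
      · rw [if_pos (RU (mem_image.mpr ⟨(m, d), mem_filter.mpr ⟨b, e⟩, rfl⟩))]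
        omega
      · rw [if_neg fun h => ?_]
        · omega
        · rcases mem_union.mp (UP h) with h | h
          · obtain ⟨p, hp, e'⟩ := mem_image.mp h
            obtain rfl := inj _ (mem_filter.mp hp).1 _ b e'
            exact e (mem_filter.mp hp).2
          · exact mem_compl.mp h (m1 c)
    · have := g7 m d b
      have : (∑ x ∈ Z, if m * x + d ∈ T x then 1 else 0) ≤ 5 := by
        rw [← card_filter, ← hZ]
        exact card_filter_le _ _
      split_ifs <;> omega

lemma prod84 {a b : ℕ} (h : a + b ≤ 84) : a * b < 1740 ∨ 1747 < a * b := by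
  by_contra! c
  have : a ≤ 84 := by omega
  interval_cases a <;> omega

end Pool.Agent.H.MP_1f0ce0_co
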