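import Pool.Agent.H.MP_1f0ce0_co.D

/-! The gadget in characteristic two. -/

namespace Pool.Agent.H.MP_1f0ce0_co
open Finset Classical

variable {F : Type} [Field F] [Fintype F]

omit [Field F] [Fintype F] in
lemma two {V : Finset F} (hV : V.card = 84) (A B : F → Prop) (d : ∀ a, A a → ¬B a) (R : F × F → Prop)
    [DecidablePred R] (hR : ∀ p, R p ↔ A p.1 ∧ B p.2 ∨ B p.1 ∧ A p.2) :
    ∃ z, (∑ p ∈ V ×ˢ V, if R p then 1 else 0) = 2 * z ∧ (z < 1740 ∨ 1747 < z) := by
  refine ⟨(V.filter A).card * (V.filter B).card, ?_, prod84 ?_⟩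
  · rw [two_mul]
    nth_rw 2 [mul_comm]
    simp only [card_filter, sum_mul_sum, ← sum_product', ← sum_add_distrib]
    refine sum_congr rfl fun p _ => ?_
    have := d p.1
    have := d p.2
    by_cases A p.1 <;> by_cases B p.1 <;> by_cases A p.2 <;> by_cases B p.2 <;> simp_all
  · rw [← card_union_of_disjoint (disjoint_filter.mpr fun a _ => d a), ← hV]
    exact card_le_card (union_subset (filter_subset _ _) (filter_subset _ _))

omit [Field F] [Fintype F] in
lemma off {V : Finset F} (hV : V.card = 84) (v : ℕ) :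
    (∑ p ∈ V ×ˢ V, if p.1 = p.2 then 0 else v) = 6972 * v := by
  rw [sum_product, sum_congr rfl (g := fun _ => 83 * v) fun a ha => ?_]
  · simp [hV]
    ring
  · rw [← add_sum_erase _ _ ha, sum_congr rfl (g := fun _ => v) fun b hb => if_neg (ne_of_mem_erase hb).symm]
    simp [card_erase_of_mem ha, hV]

lemma sidon (h2 : (2 : F) = 0) (n : ℕ) (hn : n ^ 3 < Fintype.card F) : ∃ V : Finset F, V.card = n ∧
    ∀ c ≠ 0, ((V ×ˢ V).filter fun p => p.1 + p.2 = c).card ≤ 2 := by
  induction n with
  | zero => exact ⟨∅, rfl, by simp⟩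
  | succ n ih =>
    have l : n ^ 3 < Fintype.card F := (Nat.pow_le_pow_left n.le_succ 3).trans_lt hn
    obtain ⟨V, hV, h⟩ := ih l
    obtain ⟨a, -, ha⟩ := exists_mem_notMem_of_card_lt_card (t := univ)
      (s := (V ×ˢ V ×ˢ V).image fun p => p.1 + (p.2.1 + p.2.2)) (by
        refine card_image_le.trans_lt ?_
        simp only [card_product, hV, card_univ]
        linarith)
    simp only [mem_image, mem_product, not_exists, not_and, Prod.forall, and_imp] at ha
    refine ⟨insert a V, by
      rw [card_insert_of_notMem fun m => ha a a a m m m (by linear_combination a * h2), hV],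
      fun c c0 => ?_⟩
    by_cases e : ∃ p ∈ V ×ˢ V, p.1 + p.2 = c
    · obtain ⟨p, hp, e⟩ := e
      rw [mem_product] at hp
      refine le_trans (card_le_card fun r hr => ?_) (h c c0)
      simp only [mem_filter, mem_product, mem_insert] at hr ⊢
      obtain ⟨⟨r1 | r1, r2 | r2⟩, r3⟩ := hr
      · exact absurd (by rw [← r3, r1, r2]; linear_combination a * h2) c0
      · exact absurd (by rw [e, ← r3, r1]; linear_combination r.2 * h2) (ha _ _ _ r2 hp.1 hp.2)
      · exact absurd (by rw [e, ← r3, r2]; linear_combination r.1 * h2) (ha _ _ _ r1 hp.1 hp.2)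
      · exact ⟨⟨r1, r2⟩, r3⟩
    · refine le_trans (card_le_card fun r hr => ?_) (card_le_two (a := (a, c - a)) (b := (c - a, a)))
      simp only [mem_filter, mem_product, mem_insert, mem_singleton, Prod.ext_iff] at hr e ⊢
      grind

lemma gad2 (h2 : ringChar F = 2) (hq : 10 ^ 6 ≤ Fintype.card F) : Gad F := by
  haveI : CharP F 2 := ringChar.of_eq h2
  have t : (2 : F) = 0 := CharTwo.two_eq_zero
  letI := ZMod.algebra F 2
  obtain ⟨f, f1⟩ : ∃ f : Module.Dual (ZMod 2) F, f 1 ≠ 0 := by
    by_contra! c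
    exact one_ne_zero ((Module.forall_dual_apply_eq_zero_iff (ZMod 2) (1 : F)).mp c)
  have z : ∀ u v : ZMod 2, (v ≠ 0 → (u + v = 1 ↔ ¬u = 1)) ∧
    (u + v = 1 ↔ u = 1 ∧ v = 0 ∨ u = 0 ∧ v = 1) := by decide
  have hf : ∀ c ≠ (0 : F), 2 * (∑ y, if f (c * y) = 1 then 1 else 0) = Fintype.card F := fun c c0 => by
    have := Fintype.sum_equiv (Equiv.addRight c⁻¹) (fun y => if ¬f (c * y) = 1 then 1 else 0)
      (fun y => if f (c * y) = 1 then 1 else 0) fun y => by
        simp only [Equiv.coe_addRight, mul_add, mul_inv_cancel₀ c0, map_add, (z _ _).1 f1]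
    rw [two_mul]
    nth_rw 1 [← this]
    rw [← sum_add_distrib, sum_congr rfl (g := fun _ => 1) fun y _ => by split_ifs <;> simp_all]
    simp
  obtain ⟨V, hV, h⟩ := sidon t 84 (by omega)
  let G : F → Finset F := fun c => univ.filter fun y => (∃ p ∈ V ×ˢ V, p.1 + p.2 = c) ∧ f (c * y) = 1
  have key : ∀ c y, 2 * (if y ∈ G c then 1 else 0) =
      ∑ p ∈ V ×ˢ V, if p.1 + p.2 = c then (if f (c * y) = 1 then 1 else 0) else 0 := fun c y => by
    by_cases e : f (c * y) = 1
    · have c0 : c ≠ 0 := fun c0 => by simp [c0] at e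
      simp only [G, mem_filter, mem_univ, true_and, e, and_true, if_true, ← card_filter]
      split_ifs with e
      · obtain ⟨p, hp, e⟩ := e
        refine le_antisymm ?_ (h c c0)
        rw [mul_one, ← card_pair (a := p) (b := p.swap) fun e' => c0 (by
          rw [← e, show p.1 = p.2 from congrArg Prod.fst e']
          linear_combination p.2 * t)]
        refine card_le_card (insert_subset (mem_filter.mpr ⟨hp, e⟩) (singleton_subset_iff.mpr ?_))
        simp_all [add_comm]
      · exact (card_eq_zero.mpr (filter_eq_empty_iff.mpr fun p hp e' => e ⟨p, hp, e'⟩)).symm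
    · simp [G, e]
  have tot : 2 * (2 * ∑ c, (G c).card) = 6972 * Fintype.card F := by
    rw [← off hV, sum_congr rfl (g := fun c => ∑ y, if y ∈ G c then 1 else 0) fun c _ => by simp]
    simp only [mul_sum (s := univ) _ 2, key]
    simp only [← mul_sum]
    rw [sum_comm]
    simp only [sum_comm (s := univ) (t := V ×ˢ V), sum_ite_eq, mem_univ, if_true]
    rw [mul_sum]
    refine sum_congr rfl fun p _ => ?_
    split_ifs with e
    · simp [show p.1 + p.2 = 0 by rw [e]; linear_combination p.2 * t]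
    · exact hf _ fun e' => e (by linear_combination e' - p.2 * t)
  refine ⟨G, ((V ×ˢ V).image fun p => p.1 + p.2)ᶜ, ∅, fun c hc => ?_, ?_, by simp, fun c => ?_,
    by omega, by omega, fun m d _ => ?_⟩
  · exact filter_eq_empty_iff.mpr fun y _ e => mem_compl.mp hc (mem_image.mpr e.1)
  · have := card_add_card_compl ((V ×ˢ V).image fun p => p.1 + p.2)
    have : ((V ×ˢ V).image fun p => p.1 + p.2).card ≤ 7056 := card_image_le.trans (by simp [hV])
    omega
  · by_cases e : (∃ p ∈ V ×ˢ V, p.1 + p.2 = c) ∧ c ≠ 0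
    · right
      rw [← hf c e.2, ← card_filter]
      simp only [G, e.1, true_and, le_refl]
    · left
      rw [card_eq_zero.mpr (filter_eq_empty_iff.mpr fun y _ e' => e ⟨e'.1, fun c0 => by simp [c0] at e'⟩)]
      omega
  · obtain ⟨w, h1, h2⟩ := two hV (fun a => f (a * (m * a + d)) = 1) (fun a => f (a * (m * a + d)) = 0)
      (by simp +contextual) (fun p => f ((p.1 + p.2) * (m * (p.1 + p.2) + d)) = 1) fun p => by
        rw [← (z _ _).2, ← map_add, show (p.1 + p.2) * (m * (p.1 + p.2) + d) =
          p.1 * (m * p.1 + d) + p.2 * (m * p.2 + d) by linear_combination m * p.1 * p.2 * t]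
    have : 2 * (∑ x, if m * x + d ∈ G x then 1 else 0) = 2 * w := by
      rw [← h1, mul_sum]
      simp only [key]
      rw [sum_comm]
      simp only [sum_ite_eq, mem_univ, if_true]
    omega

end Pool.Agent.H.MP_1f0ce0_co
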