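import Pool.Agent.H.MP_1f0ce0_co.E

/-! The gadget in odd characteristic: internal points of chords of a parabola. -/

namespace Pool.Agent.H.MP_1f0ce0_co
open Finset Classical

variable {F : Type} [Field F] [Fintype F] {V : Finset F} {x u : F}

/-- Ordered chords through the point with abscissa `x` and discriminant `u`. -/
noncomputable def ch (V : Finset F) (x u : F) : Finset (F × F) :=
  (V ×ˢ V).filter fun p => (x - p.1) * (x - p.2) = u

/-- The intersections of two chords. -/
noncomputable def dp (V : Finset F) : Finset (F × F) :=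
  ((V ×ˢ V) ×ˢ V ×ˢ V).image fun t =>
    let x := (t.1.1 * t.1.2 - t.2.1 * t.2.2) / (t.1.1 + t.1.2 - t.2.1 - t.2.2)
    (x, (x - t.1.1) * (x - t.1.2))

omit [Fintype F] in
lemma dp_card : (dp V).card ≤ V.card ^ 4 := card_image_le.trans (by simp only [card_product]; linarith)

omit [Fintype F] in
lemma dbl (h : 2 < (ch V x u).card) : (x, u) ∈ dp V := by
  obtain ⟨p, hp⟩ := card_pos.mp (show 0 < (ch V x u).card by omega)
  obtain ⟨r, hr, n⟩ := exists_mem_notMem_of_card_lt_card (s := {p, p.swap}) (card_le_two.trans_lt h)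
  obtain ⟨p1, p2⟩ := mem_filter.mp hp
  obtain ⟨r1, r2⟩ := mem_filter.mp hr
  have : p.1 + p.2 - r.1 - r.2 ≠ 0 := fun e => by
    have : (r.1 - p.1) * (r.1 - p.2) = 0 := by linear_combination p2 - r2 + (x - r.1) * e
    simp only [mem_insert, mem_singleton, Prod.ext_iff, Prod.fst_swap, Prod.snd_swap] at n
    grind
  have e : (p.1 * p.2 - r.1 * r.2) / (p.1 + p.2 - r.1 - r.2) = x := by
    rw [div_eq_iff this]
    linear_combination p2 - r2
  exact mem_image.mpr ⟨(p, r), mem_product.mpr ⟨p1, r1⟩, by simp only [e, p2]⟩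

lemma tri (n : ℕ) (hn : n + n ^ 5 < Fintype.card F) : ∃ V : Finset F, V.card = n ∧
    ∀ x u, ¬IsSquare u → (ch V x u).card ≤ 4 := by
  induction n with
  | zero => exact ⟨∅, rfl, by simp [ch]⟩
  | succ n ih =>
    have l : n + n ^ 5 < Fintype.card F := by
      have := Nat.pow_le_pow_left n.le_succ 5
      simp only [Nat.succ_eq_add_one] at this
      omega
    obtain ⟨V, hV, h⟩ := ih l
    obtain ⟨a, -, ha⟩ := exists_mem_notMem_of_card_lt_card (t := univ)
      (s := V ∪ (V ×ˢ dp V).image fun p => p.2.1 - p.2.2 / (p.2.1 - p.1)) (by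
        refine ((card_union_le _ _).trans (Nat.add_le_add_left card_image_le _)).trans_lt ?_
        have := Nat.mul_le_mul_left n (dp_card (V := V))
        simp only [card_product, hV, card_univ] at *
        linarith)
    rw [mem_union, not_or] at ha
    refine ⟨insert a V, by rw [card_insert_of_notMem ha.1, hV], fun x u hu => ?_⟩
    have u0 : u ≠ 0 := fun e => hu (by simp [e])
    have dv : ∀ b c, (x - b) * (x - c) = u → c = x - u / (x - b) := fun b c e => by
      rw [← e, mul_div_cancel_left₀ _ fun e' => u0 (by rw [← e, e', zero_mul])]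
      ring
    by_cases e : 2 < (ch V x u).card
    · refine le_trans (card_le_card fun r hr => ?_) (h x u hu)
      have k : ∀ b ∈ V, (x - b) * (x - a) ≠ u := fun b hb e' =>
        ha.2 (mem_image.mpr ⟨(b, x, u), mem_product.mpr ⟨hb, dbl e⟩, (dv _ _ e').symm⟩)
      simp only [ch, mem_filter, mem_product, mem_insert] at hr ⊢
      obtain ⟨⟨r1 | r1, r2 | r2⟩, r3⟩ := hr
      · exact absurd ⟨_, by rw [← r3, r1, r2]⟩ hu
      · exact absurd (by rw [← r3, r1, mul_comm]) (k _ r2)
      · exact absurd (by rw [← r3, r2]) (k _ r1)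
      · exact ⟨⟨r1, r2⟩, r3⟩
    · have := card_le_two (a := (a, x - u / (x - a))) (b := (x - u / (x - a), a))
      refine le_trans (card_le_card (t := ch V x u ∪ {(a, x - u / (x - a)), (x - u / (x - a), a)})
        fun r hr => ?_) ((card_union_le _ _).trans (by omega))
      simp only [ch, mem_filter, mem_product, mem_insert, mem_union, mem_singleton, Prod.ext_iff] at hr ⊢
      obtain ⟨⟨r1, r2⟩, r3⟩ := hr
      rcases r1 with r1 | r1
      · exact .inr (.inl ⟨r1, dv _ _ (r1 ▸ r3)⟩)
      rcases r2 with r2 | r2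
      · exact .inr (.inr ⟨dv _ _ (by rw [← r3, r2, mul_comm]), r2⟩)
      · exact .inl ⟨⟨r1, r2⟩, r3⟩

lemma nsq (a b : F) : ¬IsSquare (a * b) ↔ quadraticChar F a = 1 ∧ quadraticChar F b = -1 ∨
    quadraticChar F a = -1 ∧ quadraticChar F b = 1 := by
  rw [← quadraticChar_neg_one_iff_not_isSquare, map_mul]
  rcases quadraticChar_isQuadratic F a with h | h | h <;>
    rcases quadraticChar_isQuadratic F b with h' | h' | h' <;> simp [h, h']

lemma sqm {a : F} (a0 : a ≠ 0) (u : F) : IsSquare (a ^ 2 * u) ↔ IsSquare u := by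
  refine ⟨fun ⟨r, h⟩ => ⟨r / a, ?_⟩, fun h => (IsSquare.sq a).mul h⟩
  field_simp
  linear_combination h

lemma nsq_card (h : ringChar F ≠ 2) {a b : F} (ab : a ≠ b) :
    (∑ x, if ¬IsSquare ((x - a) * (x - b)) then 1 else 0) = (Fintype.card F - 1) / 2 := by
  have e : (univ.filter fun x => ¬IsSquare ((x - a) * (x - b))).card =
      (univ.filter fun t : F => ¬IsSquare t).card := by
    refine card_nbij' (fun x => (x - a) / (x - b)) (fun t => (a - t * b) / (1 - t)) (fun x hx => ?_)
      (fun t ht => ?_) (fun x hx => ?_) fun t ht => ?_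
    all_goals simp only [coe_filter, mem_univ, true_and, Set.mem_setOf_eq] at *
    · have : x - b ≠ 0 := fun e => hx (by simp [e])
      rwa [← sqm this, show (x - b) ^ 2 * ((x - a) / (x - b)) = (x - a) * (x - b) by field_simp]
    · have : 1 - t ≠ 0 := fun e => ht (by simp [← sub_eq_zero.mp e])
      rwa [show ((a - t * b) / (1 - t) - a) * ((a - t * b) / (1 - t) - b) = ((a - b) / (1 - t)) ^ 2 * t by
        field_simp
        ring, sqm (div_ne_zero (sub_ne_zero.mpr ab) this)]
    · have : x - b ≠ 0 := fun e => hx (by simp [e])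
      have := sub_ne_zero.mpr ab
      rw [show 1 - (x - a) / (x - b) = (a - b) / (x - b) by field_simp; ring]
      field_simp
      ring
    · have : 1 - t ≠ 0 := fun e => ht (by simp [← sub_eq_zero.mp e])
      have := sub_ne_zero.mpr ab
      rw [show (a - t * b) / (1 - t) - b = (a - b) / (1 - t) by field_simp; ring]
      field_simp
      ring
  have s : ∑ t : F, (1 - quadraticChar F t) =
      ∑ t : F, (2 * (if ¬IsSquare t then 1 else 0) + if t = 0 then 1 else 0) :=
    sum_congr rfl fun t _ => by
      by_cases t0 : t = 0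
      · simp [t0]
      by_cases c : IsSquare t
      · simp [t0, c, (quadraticChar_one_iff_isSquare t0).mpr c]
      · simp [t0, c, quadraticChar_neg_one_iff_not_isSquare.mpr c]
  rw [sum_sub_distrib, quadraticChar_sum_zero h, sum_add_distrib, ← mul_sum, sum_boole] at s
  rw [← card_filter, e]
  simp only [sum_const, card_univ, nsmul_eq_mul, sum_ite_eq', mem_univ, if_true] at s
  omega

end Pool.Agent.H.MP_1f0ce0_co
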