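import Pool.Agent.H.MP_1f0ce0_co.G

/-! The odd gadget and the main theorem. -/

namespace Pool.Agent.H.MP_1f0ce0_co
open Finset Classical

variable {F : Type} [Field F] [Fintype F] {k n : ℕ}

lemma safe (hq : 10 ^ 12 ≤ Fintype.card F) : ∃ V X : Finset F, V.card = 84 ∧
    (∀ x u, ¬IsSquare u → (ch V x u).card ≤ 4) ∧ Fintype.card F ≤ 2 ^ 168 * (X.card + 1) ∧
    ∀ x ∈ X, ∀ a ∈ V, ∀ b ∈ V, IsSquare ((x - a) * (x - b)) := by
  obtain ⟨U, hU, h⟩ := tri (F := F) 168 (by omega)
  obtain ⟨W, hW, hX⟩ := exists_le_card_fiber_of_mul_le_card_of_maps_to (s := (univ : Finset F))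
    (t := U.powerset) (f := fun x => U.filter fun a => quadraticChar F (x - a) = 1)
    (n := Fintype.card F / 2 ^ 168) (fun x _ => mem_powerset.mpr (filter_subset _ _))
    (powerset_nonempty _) (by rw [card_powerset, hU]; exact Nat.mul_div_le _ _)
  rw [mem_powerset] at hW
  obtain ⟨V, hV, VU, e⟩ : ∃ V : Finset F, V.card = 84 ∧ V ⊆ U ∧ (V ⊆ W ∨ V ⊆ U \ W) := by
    by_cases c : 84 ≤ W.card
    · obtain ⟨V, a, b⟩ := exists_subset_card_eq c
      exact ⟨V, b, a.trans hW, .inl a⟩
    · obtain ⟨V, a, b⟩ := exists_subset_card_eq (s := U \ W) (n := 84)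
        (by rw [card_sdiff_of_subset hW]; omega)
      exact ⟨V, b, a.trans sdiff_subset, .inr a⟩
  refine ⟨V, _, hV, fun x u hu => le_trans (card_le_card
    (filter_subset_filter _ (product_subset_product VU VU))) (h x u hu),
    (Nat.lt_mul_div_succ _ (by positivity)).le.trans (Nat.mul_le_mul_left _ (Nat.succ_le_succ hX)),
    fun x hx a ha b hb => ?_⟩
  by_contra c
  rw [nsq] at c
  rw [← (mem_filter.mp hx).2] at e
  rcases e with e | e
  · have := (mem_filter.mp (e ha)).2
    have := (mem_filter.mp (e hb)).2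
    omega
  · have := e ha
    have := e hb
    simp only [mem_sdiff, mem_filter] at *
    tauto

lemma gad1 (h2 : ringChar F ≠ 2) (hq : 10 ^ 12 ≤ Fintype.card F) : Gad F := by
  obtain ⟨V, X, hV, h, hX, hs⟩ := safe hq
  let G : F → Finset F := fun x => univ.filter fun y => ¬IsSquare (x ^ 2 - y) ∧ (ch V x (x ^ 2 - y)).Nonempty
  let w : F → F → ℕ := fun x y => ∑ p ∈ V ×ˢ V,
    if (x - p.1) * (x - p.2) = x ^ 2 - y then (if ¬IsSquare (x ^ 2 - y) then 1 else 0) else 0
  have key : ∀ x y, 2 * (if y ∈ G x then 1 else 0) ≤ w x y ∧ w x y ≤ 2 * (if y ∈ G x then 1 else 0) +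
      2 * if (x, x ^ 2 - y) ∈ dp V then 1 else 0 := fun x y => by
    by_cases e : IsSquare (x ^ 2 - y)
    · simp [G, w, e]
    rw [show w x y = (ch V x (x ^ 2 - y)).card by simp only [w, e, not_false_iff, if_true, ch, card_filter]]
    simp only [G, mem_filter, mem_univ, e, not_false_iff, true_and]
    by_cases c : (ch V x (x ^ 2 - y)).Nonempty
    · have := h x _ e
      have := mt (dbl (V := V) (x := x) (u := x ^ 2 - y))
      obtain ⟨p, hp⟩ := id c
      have hp' := mem_filter.mp hp
      have : 2 ≤ (ch V x (x ^ 2 - y)).card := by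
        refine (card_pair (a := p) (b := p.swap) fun e' => e ⟨_, by
          rw [← hp'.2, show p.1 = p.2 from congrArg Prod.fst e']⟩).ge.trans
          (card_le_card (insert_subset hp (singleton_subset_iff.mpr ?_)))
        simp_all [ch, mul_comm]
      rw [if_pos c]
      split_ifs with d
      · omega
      · have := this
        simp only [d, not_false_iff, forall_const] at *
        omega
    · simp [not_nonempty_iff_eq_empty.mp c]
  have col : ∀ x, ∑ y, w x y = ∑ p ∈ V ×ˢ V, if ¬IsSquare ((x - p.1) * (x - p.2)) then 1 else 0 := fun x => by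
    rw [sum_comm]
    refine sum_congr rfl fun p _ => ?_
    rw [sum_eq_single (x ^ 2 - (x - p.1) * (x - p.2)) (fun y _ n => if_neg fun e => n (by rw [e]; ring))
      (by simp)]
    simp
  have cG : ∀ x, (G x).card = ∑ y, if y ∈ G x then 1 else 0 := fun x => by simp
  have tot : ∑ x, ∑ y, w x y = 6972 * ((Fintype.card F - 1) / 2) := by
    simp only [col]
    rw [sum_comm, ← off hV]
    refine sum_congr rfl fun p _ => ?_
    split_ifs with e
    · simp [e]
    · exact nsq_card h2 e
  have d4 : (dp V).card ≤ 84 ^ 4 := hV ▸ dp_card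
  have t1 : 2 * ∑ x, (G x).card ≤ ∑ x, ∑ y, w x y := by
    simp only [cG, mul_sum]
    exact sum_le_sum fun x _ => sum_le_sum fun y _ => (key x y).1
  have t2 : ∑ x, ∑ y, w x y ≤ 2 * ∑ x, (G x).card + 2 * (dp V).card := by
    rw [show (dp V).card = ∑ x, ∑ y, if (x, x ^ 2 - y) ∈ dp V then 1 else 0 by
      rw [sum_congr rfl fun x _ => Fintype.sum_equiv (Equiv.subLeft (x ^ 2))
        (fun y => if (x, x ^ 2 - y) ∈ dp V then 1 else 0)
        (fun u => if (x, u) ∈ dp V then 1 else 0) fun _ => rfl, ← sum_product']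
      simp]
    simp only [cG, mul_sum, ← sum_add_distrib]
    exact sum_le_sum fun x _ => sum_le_sum fun y _ => (key x y).2
  let L := ((V ×ˢ V).image fun p => (p.1 + p.2, -(p.1 * p.2))) ∪ (dp V ×ˢ dp V).image fun p =>
    let m := (p.1.1 ^ 2 - p.1.2 - (p.2.1 ^ 2 - p.2.2)) / (p.1.1 - p.2.1)
    (m, p.1.1 ^ 2 - p.1.2 - m * p.1.1)
  refine ⟨G, X, L, fun x hx => filter_eq_empty_iff.mpr fun y _ ⟨e, p, hp⟩ => ?_, hX, ?_, fun x => .inl ?_,
    by omega, by omega, fun m d b => ?_⟩
  · simp only [ch, mem_filter, mem_product] at hp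
    exact e (hp.2 ▸ hs x hx _ hp.1.1 _ hp.1.2)
  · refine (card_union_le _ _).trans ((Nat.add_le_add card_image_le card_image_le).trans ?_)
    have := Nat.mul_le_mul d4 d4
    simp only [card_product, hV]
    omega
  · have : 2 * (G x).card ≤ ∑ y, w x y := by
      rw [cG, mul_sum]
      exact sum_le_sum fun y _ => (key x y).1
    rw [col, ← card_filter] at this
    have := this.trans (card_filter_le _ _)
    simp only [card_product, hV] at this
    omega
  · rw [mem_union, not_or] at b
    obtain ⟨z, z1, z2⟩ := two hV (fun a => quadraticChar F (a ^ 2 - (m * a + d)) = 1)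
      (fun a => quadraticChar F (a ^ 2 - (m * a + d)) = -1) (fun a => by omega)
      (fun p => ¬IsSquare ((p.1 ^ 2 - (m * p.1 + d)) * (p.2 ^ 2 - (m * p.2 + d)))) fun p => nsq _ _
    have s : ∑ x, w x (m * x + d) = 2 * z := by
      rw [sum_comm, ← z1]
      refine sum_congr rfl fun p hp => ?_
      by_cases c : p.1 + p.2 - m = 0
      · rw [if_neg (not_not.mpr ⟨_, by congr 1; linear_combination (p.2 - p.1) * c⟩)]
        refine sum_eq_zero fun x _ => if_neg fun e => b.1 (mem_image.mpr ⟨p, hp, Prod.ext ?_ ?_⟩)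
        · exact sub_eq_zero.mp c
        · linear_combination -e - x * c
      · rw [sum_eq_single ((p.1 * p.2 + d) / (p.1 + p.2 - m)) (fun x _ n => if_neg fun e => n (by
          rw [eq_div_iff c]
          linear_combination -e)) (by simp), if_pos (by field_simp; ring)]
        refine if_congr (not_congr ?_) rfl rfl
        rw [← sqm c]
        congr! 1
        field_simp
        ring
    have o : (∑ x, if (x, x ^ 2 - (m * x + d)) ∈ dp V then 1 else 0) ≤ 1 := by
      rw [← card_filter, card_le_one]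
      intro x hx y hy
      by_contra n
      have := sub_ne_zero.mpr n
      refine b.2 (mem_image.mpr ⟨(_, _), mem_product.mpr ⟨(mem_filter.mp hx).2, (mem_filter.mp hy).2⟩,
        Prod.ext ?_ ?_⟩) <;> simp only <;> field_simp <;> ring
    have s1 := sum_le_sum fun x (_ : x ∈ univ) => (key x (m * x + d)).1
    have s2 := sum_le_sum fun x (_ : x ∈ univ) => (key x (m * x + d)).2
    rw [← mul_sum] at s1
    rw [sum_add_distrib, ← mul_sum, ← mul_sum] at s2
    omega

lemma main (hq : 10 ^ 110 ≤ Fintype.card F) (hk : 7057 ≤ k) (hk' : k + 7057 ≤ Fintype.card F + 1)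
    (hn : n ≤ Fintype.card F ^ 2 + Fintype.card F + 1) : Av F k n := by
  obtain ⟨a, b, c⟩ := root (q := Fintype.card F) (by omega)
  have g : Gad F := by
    by_cases h : ringChar F = 2
    · exact gad2 h (by omega)
    · exact gad1 h (by omega)
  have s1 := Nat.sqrt_le (Fintype.card F)
  have s2 : 10 ^ 55 ≤ (Fintype.card F).sqrt := Nat.le_sqrt.mpr (by omega)
  have s3 := Nat.mul_le_mul_right (Fintype.card F).sqrt s2
  have low : ∀ k n, 7057 ≤ k → k ≤ 20 * ((Fintype.card F).sqrt + 3) →
      n ≤ Fintype.card F ^ 2 + Fintype.card F + 1 → Av F k n := fun k n h1 h2 h3 =>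
    red (by omega) (by omega) h3 (g.av h1 (by linarith))
  by_cases c1 : k ≤ 20 * ((Fintype.card F).sqrt + 3)
  · exact low k n hk c1 hn
  by_cases c2 : k + 20 * ((Fintype.card F).sqrt + 3) ≤ Fintype.card F + 1
  · exact mid a b (by omega) c2 hn
  · exact (low (Fintype.card F + 1 - k) (Fintype.card F ^ 2 + Fintype.card F + 1 - n) (by omega)
      (by omega) (by omega)).compl (by omega) (by omega)

end Pool.Agent.H.MP_1f0ce0_co
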